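import Mathlib

/-!
Project TwoCurves: reduction of the exponents of `w ^ n = F₁ ^ a₁ * F₂ ^ a₂`.
-/

set_option autoImplicit false

namespace Pool.Agent.Helper48.TC

open Polynomial IntermediateField

section int

/-- the exponents are determined up to a unit -/
theorem exists_exp {n : ℕ} {d₁ d₂ a₁ a₂ : ℤ} (hd : IsCoprime d₁ d₂) (h : (n : ℤ) ∣ a₁ * d₁ + a₂ * d₂)
    (hg : ∀ d : ℕ, d ∣ n → (d : ℤ) ∣ a₁ → (d : ℤ) ∣ a₂ → d = 1) :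
    ∃ c e : ℤ, (n : ℤ) ∣ e * c - 1 ∧ (n : ℤ) ∣ a₁ - d₂ * c ∧ (n : ℤ) ∣ a₂ + d₁ * c := by
  obtain ⟨r, s, hrs⟩ := hd
  set c := s * a₁ - r * a₂ with hc
  have h1 : (n : ℤ) ∣ a₁ - d₂ * c := by
    have e1 : a₁ - d₂ * c = r * (a₁ * d₁ + a₂ * d₂) := by
      rw [hc]; linear_combination (-a₁) * hrs
    rw [e1]
    exact Dvd.dvd.mul_left h r
  have h2 : (n : ℤ) ∣ a₂ + d₁ * c := by
    have e2 : a₂ + d₁ * c = s * (a₁ * d₁ + a₂ * d₂) := by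
      rw [hc]; linear_combination (-a₂) * hrs
    rw [e2]
    exact Dvd.dvd.mul_left h s
  have h3 : IsCoprime c (n : ℤ) := by
    rw [Int.isCoprime_iff_gcd_eq_one]
    have h4 : (Int.gcd c n : ℤ) ∣ c := Int.gcd_dvd_left _ _
    have h5 : (Int.gcd c n : ℤ) ∣ (n : ℤ) := Int.gcd_dvd_right _ _
    refine hg _ (by exact_mod_cast h5) ?_ ?_
    · have h6 := dvd_add (h5.trans h1) (Dvd.dvd.mul_left h4 d₂)
      rwa [sub_add_cancel] at h6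
    · have h6 := dvd_sub (h5.trans h2) (Dvd.dvd.mul_left h4 d₁)
      rwa [add_sub_cancel_right] at h6
  obtain ⟨e, f, hef⟩ := h3
  refine ⟨c, e, ⟨-f, ?_⟩, h1, h2⟩
  linear_combination hef

end int

variable {k K : Type*} [Field k] [Field K] [Algebra k K]

/-- if the degree is `n` then the exponents have no common divisor with `n` -/
theorem gcd_of_finrank {n : ℕ} (hn : 0 < n) {F₁ F₂ : k} (h₁ : F₁ ≠ 0) (h₂ : F₂ ≠ 0) {a₁ a₂ : ℤ} {w : K}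
    (hw : w ^ n = algebraMap k K (F₁ ^ a₁ * F₂ ^ a₂)) (hr : ∀ z : K, z ^ n = 1 → z ∈ Set.range (algebraMap k K))
    (hK : adjoin k {w} = ⊤) (hdeg : Module.finrank k K = n) {d : ℕ} (hd : d ∣ n) (hd₁ : (d : ℤ) ∣ a₁)
    (hd₂ : (d : ℤ) ∣ a₂) : d = 1 := by
  obtain ⟨m, hm⟩ := hd
  obtain ⟨b₁, hb₁⟩ := hd₁
  obtain ⟨b₂, hb₂⟩ := hd₂
  have hm0 : 0 < m := by
    rcases Nat.eq_zero_or_pos m with h | h
    · subst h; omega
    · exact h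
  have hd0 : 0 < d := by
    rcases Nat.eq_zero_or_pos d with h | h
    · subst h; omega
    · exact h
  set u : k := F₁ ^ b₁ * F₂ ^ b₂ with hu
  have hu0 : u ≠ 0 := mul_ne_zero (zpow_ne_zero _ h₁) (zpow_ne_zero _ h₂)
  have hud : u ^ d = F₁ ^ a₁ * F₂ ^ a₂ := by
    rw [hu, mul_pow, hb₁, hb₂, ← zpow_natCast, ← zpow_natCast, ← zpow_mul, ← zpow_mul, mul_comm b₁, mul_comm b₂]
  have hau0 : algebraMap k K u ≠ 0 := by
    rwa [Ne, map_eq_zero]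
  have hz : (w ^ m / algebraMap k K u) ^ d = 1 := by
    rw [div_pow, ← pow_mul, mul_comm m d, ← hm, hw, ← map_pow, hud]
    apply div_self
    rw [Ne, map_eq_zero, ← hud]
    exact pow_ne_zero _ hu0
  obtain ⟨z, hz'⟩ := hr (w ^ m / algebraMap k K u) (by rw [hm, pow_mul, hz, one_pow])
  have hwm : w ^ m = algebraMap k K (z * u) := by
    rw [map_mul, hz', div_mul_cancel₀ _ hau0]
  have hmon : (X ^ m - C (z * u) : k[X]).Monic := monic_X_pow_sub_C _ hm0.ne'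
  have hint : IsIntegral k w := ⟨X ^ m - C (z * u), hmon, by
    rw [← aeval_def, map_sub, map_pow, aeval_X, aeval_C, hwm, sub_self]⟩
  have h3 : (minpoly k w).natDegree ≤ m := by
    have h4 := minpoly.min k w hmon (by
      rw [map_sub, map_pow, aeval_X, aeval_C, hwm, sub_self])
    have h5 := natDegree_le_natDegree h4
    rwa [natDegree_X_pow_sub_C] at h5
  have h6 : Module.finrank k K = (minpoly k w).natDegree := by
    rw [← adjoin.finrank hint, hK, finrank_top']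
  rw [← h6, hdeg, hm] at h3
  by_contra hne
  have h7 : 2 ≤ d := by omega
  nlinarith

/-- **Reduction of the exponents.** -/
theorem exists_red {n : ℕ} (hn : 0 < n) {F₁ F₂ : k} (h₁ : F₁ ≠ 0) (h₂ : F₂ ≠ 0) {a₁ a₂ : ℤ} {d₁ d₂ : ℕ} {w : K}
    (hw : w ^ n = algebraMap k K (F₁ ^ a₁ * F₂ ^ a₂)) (hd : IsCoprime (d₁ : ℤ) (d₂ : ℤ))
    (h : (n : ℤ) ∣ a₁ * d₁ + a₂ * d₂) (hg : ∀ d : ℕ, d ∣ n → (d : ℤ) ∣ a₁ → (d : ℤ) ∣ a₂ → d = 1) :
    ∃ e k₁ k₂ : ℤ, (w ^ e * algebraMap k K (F₁ ^ k₁ * F₂ ^ k₂)) ^ n * algebraMap k K F₂ ^ d₁ = algebraMap k K F₁ ^ d₂ ∧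
      adjoin k {w ^ e * algebraMap k K (F₁ ^ k₁ * F₂ ^ k₂)} = adjoin k {w} := by
  obtain ⟨c, e, ⟨t, ht⟩, ⟨t₁, ht₁⟩, ⟨t₂, ht₂⟩⟩ := exists_exp hd h hg
  have g₁ : algebraMap k K F₁ ≠ 0 := by rwa [Ne, map_eq_zero]
  have g₂ : algebraMap k K F₂ ≠ 0 := by rwa [Ne, map_eq_zero]
  have hw0 : w ≠ 0 := by
    rintro rfl
    rw [zero_pow hn.ne'] at hw
    have h3 : F₁ ^ a₁ * F₂ ^ a₂ ≠ 0 := mul_ne_zero (zpow_ne_zero _ h₁) (zpow_ne_zero _ h₂)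
    exact h3 ((map_eq_zero (algebraMap k K)).mp hw.symm)
  have hw' : w ^ (n : ℤ) = algebraMap k K F₁ ^ a₁ * algebraMap k K F₂ ^ a₂ := by
    rw [zpow_natCast, hw, map_mul, map_zpow₀, map_zpow₀]
  -- `e * a₁ = d₂ + n * s₁`, `e * a₂ = - d₁ + n * s₂`
  have es₁ : e * a₁ = d₂ + n * (d₂ * t + e * t₁) := by
    linear_combination e * ht₁ + d₂ * ht
  have es₂ : e * a₂ = -d₁ + n * (-d₁ * t + e * t₂) := by
    linear_combination e * ht₂ - d₁ * ht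
  refine ⟨e, -(d₂ * t + e * t₁), -(-d₁ * t + e * t₂), ?_, ?_⟩
  · rw [← zpow_natCast _ n, ← zpow_natCast _ d₁, ← zpow_natCast _ d₂, map_mul, map_zpow₀, map_zpow₀, mul_zpow,
      mul_zpow, ← zpow_mul, ← zpow_mul, ← zpow_mul, mul_comm e, zpow_mul, hw', mul_zpow, ← zpow_mul, ← zpow_mul,
      mul_comm a₁, mul_comm a₂, es₁, es₂]
    rw [show algebraMap k K F₁ ^ (↑d₂ + ↑n * (↑d₂ * t + e * t₁)) * algebraMap k K F₂ ^ (-↑d₁ + ↑n * (-↑d₁ * t + e * t₂)) *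
      (algebraMap k K F₁ ^ (-(↑d₂ * t + e * t₁) * ↑n) * algebraMap k K F₂ ^ (-(-↑d₁ * t + e * t₂) * ↑n)) *
      algebraMap k K F₂ ^ (d₁ : ℤ) =
      (algebraMap k K F₁ ^ (↑d₂ + ↑n * (↑d₂ * t + e * t₁)) * algebraMap k K F₁ ^ (-(↑d₂ * t + e * t₁) * ↑n)) *
      (algebraMap k K F₂ ^ (-↑d₁ + ↑n * (-↑d₁ * t + e * t₂)) * algebraMap k K F₂ ^ (-(-↑d₁ * t + e * t₂) * ↑n) *
      algebraMap k K F₂ ^ (d₁ : ℤ)) by ring]
    rw [← zpow_add₀ g₁, ← zpow_add₀ g₂, ← zpow_add₀ g₂]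
    rw [show ((d₂ : ℤ) + ↑n * (↑d₂ * t + e * t₁)) + (-(↑d₂ * t + e * t₁) * ↑n) = d₂ by ring,
      show (-(d₁ : ℤ) + ↑n * (-↑d₁ * t + e * t₂)) + (-(-↑d₁ * t + e * t₂) * ↑n) + d₁ = 0 by ring, zpow_zero, mul_one]
  · apply le_antisymm
    · rw [adjoin_simple_le_iff]
      exact mul_mem (zpow_mem (mem_adjoin_simple_self k w) e) (IntermediateField.algebraMap_mem _ _)
    · rw [adjoin_simple_le_iff]
      set w' := w ^ e * algebraMap k K (F₁ ^ (-(d₂ * t + e * t₁)) * F₂ ^ (-(-d₁ * t + e * t₂))) with hwd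
      have hu0 : algebraMap k K (F₁ ^ (-(d₂ * t + e * t₁)) * F₂ ^ (-(-d₁ * t + e * t₂))) ≠ 0 := by
        rw [Ne, map_eq_zero]
        exact mul_ne_zero (zpow_ne_zero _ h₁) (zpow_ne_zero _ h₂)
      have h3 : w ^ e = w' * (algebraMap k K (F₁ ^ (-(d₂ * t + e * t₁)) * F₂ ^ (-(-d₁ * t + e * t₂))))⁻¹ := by
        rw [hwd, mul_assoc, mul_inv_cancel₀ hu0, mul_one]
      have h4 : w ^ e ∈ adjoin k {w'} := by
        rw [h3]
        exact mul_mem (mem_adjoin_simple_self k w') (inv_mem (IntermediateField.algebraMap_mem _ _))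
      have h5 : w = (w ^ e) ^ c * (w ^ (n : ℤ)) ^ (-t) := by
        rw [← zpow_mul, ← zpow_mul, ← zpow_add₀ hw0]
        rw [show e * c + ↑n * -t = 1 by linear_combination ht, zpow_one]
      rw [h5]
      refine mul_mem (zpow_mem h4 c) (zpow_mem ?_ _)
      rw [zpow_natCast, hw]
      exact IntermediateField.algebraMap_mem _ _

/-- an element which is integral over an algebraically closed field is a constant -/
theorem mem_range_of_pow_eq_one {Ω K : Type*} [Field Ω] [IsAlgClosed Ω] [Field K] [Algebra Ω K] {n : ℕ} (hn : 0 < n)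
    {z : K} (hz : z ^ n = 1) : z ∈ Set.range (algebraMap Ω K) := by
  have hint : IsIntegral Ω z := ⟨X ^ n - C 1, monic_X_pow_sub_C _ hn.ne', by
    rw [← aeval_def, map_sub, map_pow, aeval_X, aeval_C, hz, map_one, sub_self]⟩
  exact minpoly.mem_range_of_degree_eq_one Ω z (IsAlgClosed.degree_eq_one_of_irreducible Ω (minpoly.irreducible hint))

/-- **Reduction of the exponents, for function fields.** If `w ^ n = F₁ ^ a₁ * F₂ ^ a₂`, `n ∣ a₁ d₁ + a₂ d₂`, then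
another generator `w'` has `w' ^ n * F₂ ^ d₁ = F₁ ^ d₂`. (`F₂ = 1`, `a₂ = 0`, `d₁ = 0`, `d₂ = 1`: `w' ^ n = F₁`.) -/
theorem exists_red_field {Ω K : Type*} [Field Ω] [IsAlgClosed Ω] [Field K] [Algebra Ω K] {x y w : K}
    (hK : adjoin Ω {x, y, w} = ⊤) {n : ℕ} (hn : 0 < n) (hdeg : Module.finrank (adjoin Ω {x, y}) K = n) {F₁ F₂ : K}
    (h₁ : F₁ ∈ adjoin Ω {x, y}) (h₂ : F₂ ∈ adjoin Ω {x, y}) (h₁' : F₁ ≠ 0) (h₂' : F₂ ≠ 0) {a₁ a₂ d₁ d₂ : ℕ}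
    (hw : w ^ n = F₁ ^ a₁ * F₂ ^ a₂) (hd : Nat.Coprime d₁ d₂) (h : n ∣ a₁ * d₁ + a₂ * d₂) :
    ∃ w' : K, w' ^ n * F₂ ^ d₁ = F₁ ^ d₂ ∧ adjoin Ω {x, y, w'} = ⊤ ∧
      ∃ e k₁ k₂ : ℤ, w' = w ^ e * (F₁ ^ k₁ * F₂ ^ k₂) := by
  set k := adjoin Ω {x, y} with hk
  have hset : ∀ t : K, adjoin Ω {x, y, t} = (adjoin k {t}).restrictScalars Ω := by
    intro t
    rw [hk, adjoin_adjoin_left, show ({x, y} ∪ {t} : Set K) = {x, y, t} by ext; simp; tauto]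
  have hK' : adjoin k {w} = ⊤ := by
    rw [hset] at hK
    exact restrictScalars_eq_top_iff.mp hK
  have hw' : w ^ n = algebraMap k K ((⟨F₁, h₁⟩ : k) ^ (a₁ : ℤ) * (⟨F₂, h₂⟩ : k) ^ (a₂ : ℤ)) := by
    rw [zpow_natCast, zpow_natCast, map_mul, map_pow, map_pow]
    exact hw
  have e₁ : (⟨F₁, h₁⟩ : k) ≠ 0 := fun h => h₁' (congrArg Subtype.val h)
  have e₂ : (⟨F₂, h₂⟩ : k) ≠ 0 := fun h => h₂' (congrArg Subtype.val h)
  obtain ⟨e, k₁, k₂, h3, h4⟩ := exists_red hn e₁ e₂ hw' (Nat.isCoprime_iff_coprime.mpr hd) (by exact_mod_cast h)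
    (fun d hd hd₁ hd₂ => gcd_of_finrank hn e₁ e₂ hw' (fun z hz => by
      obtain ⟨c, hc⟩ := mem_range_of_pow_eq_one (Ω := Ω) hn hz
      exact ⟨algebraMap Ω k c, hc⟩) hK' hdeg hd hd₁ hd₂)
  refine ⟨w ^ e * algebraMap k K ((⟨F₁, h₁⟩ : k) ^ k₁ * (⟨F₂, h₂⟩ : k) ^ k₂), h3, ?_, e, k₁, k₂, ?_⟩
  · rw [hset, h4, hK', restrictScalars_top]
  · rw [map_mul, map_zpow₀, map_zpow₀]
    rfl

/-- the new generator is also a Frobenius eigenvector -/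
theorem frob_red {K : Type*} [Field K] (φ : K →+* K) (q : ℕ) {w F₁ F₂ : K} (hw : φ w = w ^ q) (h₁ : φ F₁ = F₁ ^ q)
    (h₂ : φ F₂ = F₂ ^ q) (e k₁ k₂ : ℤ) : φ (w ^ e * (F₁ ^ k₁ * F₂ ^ k₂)) = (w ^ e * (F₁ ^ k₁ * F₂ ^ k₂)) ^ q := by
  rw [map_mul, map_mul, map_zpow₀, map_zpow₀, map_zpow₀, hw, h₁, h₂, mul_pow, mul_pow, ← zpow_natCast, ← zpow_natCast,
    ← zpow_natCast, ← zpow_natCast, ← zpow_natCast, ← zpow_natCast, ← zpow_mul, ← zpow_mul, ← zpow_mul, ← zpow_mul,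
    ← zpow_mul, ← zpow_mul, mul_comm e, mul_comm k₁, mul_comm k₂]

end Pool.Agent.Helper48.TC
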